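import Pool.Agent.Lib.MP_565f87_an.Peel

/-!
Left cancellative monoids on which the group of units acts freely.
-/

set_option autoImplicit false

namespace Pool.Agent.Lib.MP_565f87_an

open Pool.Agent.Lib.MP_565f87_an.Loc

universe u v

variable {M : Type u} [Monoid M]

theorem mem_RClass_iff [IsLeftCancelMul M] {m n : M} :
    n ∈ RClass m ↔ ∃ g : Mˣ, n = m * g := by
  constructor
  · rintro ⟨⟨s, rfl⟩, t, ht⟩
    have h1 : s * t = 1 := by
      apply mul_left_cancel (a := m)
      rw [← mul_assoc, ← ht, mul_one]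
    have h2 : t * s = 1 := by
      apply mul_left_cancel (a := s)
      rw [← mul_assoc, h1, one_mul, mul_one]
    exact ⟨⟨s, t, h1, h2⟩, rfl⟩
  · rintro ⟨g, rfl⟩
    exact ⟨⟨g, rfl⟩, ⟨(g⁻¹ : Mˣ), by simp⟩⟩

/-- Coordinates for a free action of the units: every element is uniquely a unit times the
representative of its orbit. -/
theorem exists_coords (hfree : ∀ (g : Mˣ) (m : M), g * m = m → g = 1) :
    ∃ (r : M → M) (c : M → Mˣ), (∀ m, m = c m * r m) ∧ (∀ (g : Mˣ) m, r (g * m) = r m) ∧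
      ∀ (g : Mˣ) m, c (g * m) = g * c m := by
  classical
  let r : M → M := fun m => (Quotient.mk (MulAction.orbitRel Mˣ M) m).out
  have h1 : ∀ m, ∃ g : Mˣ, m = g * r m := by
    intro m
    have h := Quotient.exact (Quotient.out_eq (Quotient.mk (MulAction.orbitRel Mˣ M) m))
    have h2 : m ∈ MulAction.orbit Mˣ (r m) := ((MulAction.orbitRel Mˣ M).symm h)
    obtain ⟨g, hg⟩ := h2
    exact ⟨g, hg.symm⟩
  choose c hc using h1
  have h2 : ∀ (g : Mˣ) m, r (g * m) = r m := by
    intro g m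
    have : Quotient.mk (MulAction.orbitRel Mˣ M) (g * m) =
        Quotient.mk (MulAction.orbitRel Mˣ M) m := Quotient.sound ⟨g, rfl⟩
    simp only [r, this]
  refine ⟨r, c, hc, h2, fun g m => ?_⟩
  have h3 : ((c (g * m))⁻¹ * (g * c m) : Mˣ) * r m = r m := by
    rw [Units.val_mul, Units.val_mul, mul_assoc, mul_assoc, ← hc m, Units.inv_mul_eq_iff_eq_mul,
      ← h2 g m]
    exact hc _
  have := hfree _ _ h3
  rw [inv_mul_eq_one] at this
  exact this

theorem surjunctive_of_units [IsLeftCancelMul M] (hfree : ∀ (g : Mˣ) (m : M), g * m = m → g = 1)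
    (hU : Surjunctive.{u, v} Mˣ) : Surjunctive.{u, v} M := by
  classical
  intro A _ _ τ hτ hinj
  obtain ⟨r, c, hc, hr, hcg⟩ := exists_coords hfree
  have hτ' := hτ
  obtain ⟨S, μ, hμ⟩ := hτ'
  let D : Finset M := S.image r
  have hD : ∀ s : S, r s.1 ∈ D := fun s => Finset.mem_image.2 ⟨s.1, s.2, rfl⟩
  let k : M → Mˣ := fun s => if hs : IsUnit s then hs.unit else c s
  let Φ : (Mˣ → A × (D → A)) → (Mˣ → A × (D → A)) := fun w g =>
    (μ fun s => if IsUnit s.1 then (w (g * k s.1)).1 else (w (g * k s.1)).2 ⟨r s.1, hD s⟩, (w g).2)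
  have hΦ : IsCA Φ := by
    refine ⟨insert 1 (S.image k), fun w =>
      (μ fun s => if IsUnit s.1 then
          (w ⟨k s.1, Finset.mem_insert_of_mem (Finset.mem_image.2 ⟨s.1, s.2, rfl⟩)⟩).1 else
          (w ⟨k s.1, Finset.mem_insert_of_mem (Finset.mem_image.2 ⟨s.1, s.2, rfl⟩)⟩).2
            ⟨r s.1, hD s⟩,
        (w ⟨1, Finset.mem_insert_self _ _⟩).2), fun w g => ?_⟩
    simp only [Φ, mul_one]
  have hnu : ∀ (g : Mˣ) (s : M), ¬ IsUnit s → ¬ IsUnit ((g : M) * s) := fun g s hs h =>
    hs ((Units.isUnit_units_mul g s).1 h)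
  have hR1 : ∀ n : M, n ∈ RClass (1 : M) ↔ IsUnit n := by
    intro n
    rw [mem_RClass_iff]
    constructor
    · rintro ⟨g, rfl⟩
      simp
    · rintro ⟨g, rfl⟩
      exact ⟨g, by simp⟩
  have hΦinj : Function.Injective Φ := by
    let ext : (Mˣ → A × (D → A)) → M → A := fun w m =>
      if hm : IsUnit m then (w hm.unit).1 else
        if hd : r m ∈ D then (w (c m)).2 ⟨r m, hd⟩ else Classical.arbitrary A
    have hext : ∀ w (g : Mˣ), ext w g = (w g).1 := by
      intro w g
      simp only [ext, dif_pos g.isUnit, IsUnit.unit_of_val_units]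
    have hτext : ∀ w (g : Mˣ), τ (ext w) g = (Φ w g).1 := by
      intro w g
      rw [hμ]
      simp only [Φ]
      congr 1
      funext s
      by_cases hs : IsUnit s.1
      · have e : (g : M) * s.1 = ((g * k s.1 : Mˣ) : M) := by
          simp only [k, dif_pos hs, Units.val_mul, IsUnit.unit_spec]
        rw [if_pos hs, e, hext]
      · have hd : r (g * s.1) ∈ D := by rw [hr]; exact hD s
        simp only [ext, if_neg hs, dif_neg (hnu g _ hs), dif_pos hd, k, dif_neg hs, hcg]
        exact congrArg _ (Subtype.ext (hr _ _))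
    intro w w' hw
    have h2 : ∀ g, (w g).2 = (w' g).2 := fun g =>
      (congrArg Prod.snd (congrFun hw g) : (Φ w g).2 = (Φ w' g).2)
    have h1 := rel_inj hτ hinj 1 (ext w) (ext w')
      (fun n hn => by
        rw [hR1] at hn
        simp only [ext, dif_neg hn, h2])
      (fun n hn => by
        obtain ⟨g, rfl⟩ := (hR1 n).1 hn
        rw [hτext, hτext, hw])
    funext g
    refine Prod.ext ?_ (h2 g)
    rw [← hext, ← hext]
    exact h1 _ ((hR1 _).2 g.isUnit)
  have hΦsurj := Surjunctive.any hU _ Φ hΦ hΦinj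
  refine peel hτ fun m z y => ?_
  obtain ⟨w, hw⟩ := hΦsurj fun g => (y (m * g), fun d => z (m * g * d.1))
  have hw2 : ∀ g : Mˣ, (w g).2 = fun d : D => z (m * g * d.1) := fun g =>
    congrArg Prod.snd (congrFun hw g)
  have hw1 : ∀ g : Mˣ, (Φ w g).1 = y (m * g) := fun g => congrArg Prod.fst (congrFun hw g)
  let x : M → A := fun n => if h : ∃ g : Mˣ, n = m * g then (w h.choose).1 else z n
  have hx : ∀ g : Mˣ, x (m * g) = (w g).1 := by
    intro g
    have h : ∃ g' : Mˣ, m * g = m * g' := ⟨g, rfl⟩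
    have : h.choose = g := Units.ext (mul_left_cancel h.choose_spec).symm
    simp only [x, dif_pos h, this]
  refine ⟨x, fun n hn => ?_, fun n hn => ?_⟩
  · rw [mem_RClass_iff] at hn
    simp only [x, dif_neg hn]
  · obtain ⟨g, rfl⟩ := mem_RClass_iff.1 hn
    rw [← hw1, hμ]
    simp only [Φ]
    congr 1
    funext s
    by_cases hs : IsUnit s.1
    · have e : m * g * s.1 = m * ((g * k s.1 : Mˣ) : M) := by
        simp only [k, dif_pos hs, Units.val_mul, IsUnit.unit_spec, mul_assoc]
      rw [if_pos hs, e, hx]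
    · have h : ¬ ∃ g' : Mˣ, m * g * s.1 = m * g' := by
        rintro ⟨g', hg'⟩
        rw [mul_assoc] at hg'
        exact hnu g _ hs (mul_left_cancel hg' ▸ g'.isUnit)
      rw [if_neg hs, hw2]
      have e : x (m * g * s.1) = z (m * g * s.1) := by simp only [x, dif_neg h]
      rw [e]
      simp only [k, dif_neg hs, Units.val_mul, mul_assoc]
      rw [← hc]

end Pool.Agent.Lib.MP_565f87_an
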