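import Mathlib

set_option autoImplicit false

namespace Pool.Agent.Lib.MP_565f87_an.Loc

universe u v

/-- `τ` is a cellular automaton over the monoid `M` with alphabet `A`. -/
def IsCA {M : Type u} [Monoid M] {A : Type v} (τ : (M → A) → (M → A)) : Prop :=
  ∃ (S : Finset M) (μ : (S → A) → A), ∀ (x : M → A) (m : M), τ x m = μ (fun s => x (m * s.1))

/-- Every injective cellular automaton over `M` with a finite nonempty alphabet is surjective. -/
def Surjunctive (M : Type u) [Monoid M] : Prop :=
  ∀ (A : Type v) [Finite A] [Nonempty A] (τ : (M → A) → (M → A)),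
    IsCA τ → Function.Injective τ → Function.Surjective τ

theorem window {M : Type u} [Monoid M] {A : Type v} [Finite A] (τ : (M → A) → (M → A))
    (hτ : IsCA τ) (hinj : Function.Injective τ) :
    ∃ T : Finset M, ∀ x y : M → A, (∀ t ∈ T, τ x t = τ y t) → x 1 = y 1 := by
  classical
  obtain ⟨S, μ, hμ⟩ := hτ
  let _ : TopologicalSpace A := ⊥
  have : DiscreteTopology A := ⟨rfl⟩
  have hcont : ∀ m : M, Continuous (fun x : M → A => τ x m) := by
    intro m
    have : (fun x : M → A => τ x m) = fun x => μ (fun s => x (m * s.1)) := by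
      funext x; exact hμ x m
    rw [this]
    have h1 : Continuous μ := continuous_of_discreteTopology
    exact h1.comp (continuous_pi fun s => continuous_apply _)
  let K : Set ((M → A) × (M → A)) := {p | p.1 1 ≠ p.2 1}
  have hc1 : Continuous (fun p : (M → A) × (M → A) => (p.1 1, p.2 1)) := by fun_prop
  have hK : IsClosed K := by
    have : K = (fun p : (M → A) × (M → A) => (p.1 1, p.2 1)) ⁻¹' {q | q.1 ≠ q.2} := rfl
    rw [this]
    exact (isClosed_discrete _).preimage hc1
  let U : M → Set ((M → A) × (M → A)) := fun t => {p | τ p.1 t ≠ τ p.2 t}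
  have hU : ∀ t, IsOpen (U t) := by
    intro t
    have hc : Continuous (fun p : (M → A) × (M → A) => (τ p.1 t, τ p.2 t)) :=
      ((hcont t).comp continuous_fst).prodMk ((hcont t).comp continuous_snd)
    have : U t = (fun p : (M → A) × (M → A) => (τ p.1 t, τ p.2 t)) ⁻¹' {q | q.1 ≠ q.2} := rfl
    rw [this]
    exact (isOpen_discrete _).preimage hc
  have hcov : K ⊆ ⋃ t, U t := by
    intro p hp
    by_contra hne
    simp only [Set.mem_iUnion, not_exists] at hne
    have : τ p.1 = τ p.2 := by
      funext t
      by_contra h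
      exact hne t h
    have := hinj this
    exact hp (by rw [this])
  obtain ⟨T, hT⟩ := hK.isCompact.elim_finite_subcover U hU hcov
  refine ⟨T, fun x y hxy => ?_⟩
  by_contra hne
  have hmem : (x, y) ∈ K := hne
  have := hT hmem
  simp only [Set.mem_iUnion] at this
  obtain ⟨t, ht, h⟩ := this
  exact h (hxy t ht)

/-- **A monoid each of whose finitely generated submonoids is finite or surjunctive is
surjunctive.** -/
theorem of_local (M : Type u) [Monoid M]
    (h : ∀ s : Finset M, (Submonoid.closure (s : Set M) : Set M).Finite ∨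
      Surjunctive.{u, v} (Submonoid.closure (s : Set M))) :
    Surjunctive.{u, v} M := by
  intro A _ hA τ hτ hinj
  classical
  obtain ⟨T, hT⟩ := window τ hτ hinj
  obtain ⟨S, μ, hμ⟩ := hτ
  obtain ⟨a0⟩ := hA
  let N : Submonoid M := Submonoid.closure ((S ∪ T : Finset M) : Set M)
  have hSN : ∀ s ∈ S, s ∈ N := fun s hs => Submonoid.subset_closure (by simp [hs])
  have hTN : ∀ t ∈ T, t ∈ N := fun t ht => Submonoid.subset_closure (by simp [ht])
  let τN : (N → A) → (N → A) := fun y n => μ (fun s => y (n * ⟨s.1, hSN s.1 s.2⟩))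
  have hres : ∀ (x : M → A) (m : M) (n : N), τ x (m * n.1) = τN (fun k => x (m * k.1)) n := by
    intro x m n
    rw [hμ]
    simp only [τN, Submonoid.coe_mul, mul_assoc]
  let ext : (N → A) → (M → A) := fun y m => if hm : m ∈ N then y ⟨m, hm⟩ else a0
  have hext : ∀ (y : N → A) (n : N), (fun k : N => ext y (n.1 * k.1)) = fun k => y (n * k) := by
    intro y n
    funext k
    simp only [ext]
    rw [dif_pos (N.mul_mem n.2 k.2)]
    rfl
  have hshift : ∀ (y : N → A) (n k : N), τN (fun j => y (n * j)) k = τN y (n * k) := by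
    intro y n k
    simp only [τN, mul_assoc]
  -- the inverse window works inside `N`
  have hTN' : ∀ (y y' : N → A) (n : N), (∀ t : T, τN y (n * ⟨t.1, hTN t.1 t.2⟩) =
      τN y' (n * ⟨t.1, hTN t.1 t.2⟩)) → y n = y' n := by
    intro y y' n hy
    have := hT (fun m => ext y (n.1 * m)) (fun m => ext y' (n.1 * m)) (by
      intro t ht
      have e1 := hres (fun m => ext y (n.1 * m)) 1 ⟨t, hTN t ht⟩
      have e2 := hres (fun m => ext y' (n.1 * m)) 1 ⟨t, hTN t ht⟩
      simp only [one_mul] at e1 e2
      rw [e1, e2, hext, hext, hshift, hshift]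
      exact hy ⟨t, ht⟩)
    simpa [ext, n.2] using this
  have hinjN : Function.Injective τN := by
    intro y y' hy
    funext n
    exact hTN' y y' n fun t => by rw [hy]
  have hsurjN : Function.Surjective τN := by
    rcases h (S ∪ T) with hfin | hs
    · have : Finite N := hfin.to_subtype
      exact Finite.surjective_of_injective hinjN
    · have : Nonempty A := ⟨a0⟩
      refine hs A τN ⟨S.attach.image fun s => (⟨s.1, hSN s.1 s.2⟩ : N), fun w =>
        μ (fun s => w ⟨⟨s.1, hSN s.1 s.2⟩, Finset.mem_image.2 ⟨s, Finset.mem_attach _ _, rfl⟩⟩),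
        fun y n => rfl⟩ hinjN
  intro z
  choose pre hpre using hsurjN
  refine ⟨fun m => pre (fun k => z (m * k.1)) 1, ?_⟩
  funext m
  have e1 := hres (fun m => pre (fun k => z (m * k.1)) 1) m 1
  simp only [OneMemClass.coe_one, mul_one] at e1
  have e2 : (fun k : N => pre (fun j => z (m * k.1 * j.1)) 1) = pre (fun k => z (m * k.1)) := by
    funext k
    have e3 : τN (fun j => pre (fun k => z (m * k.1)) (k * j)) = fun j => z (m * k.1 * j.1) := by
      funext j
      rw [hshift, hpre]
      simp only [Submonoid.coe_mul, mul_assoc]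
    have e4 : (fun j => pre (fun k => z (m * k.1)) (k * j)) =
        pre (fun j : N => z (m * k.1 * j.1)) := hinjN (by rw [e3, hpre])
    rw [← e4]
    simp only [mul_one]
  rw [e1, e2, hpre]
  simp

end Pool.Agent.Lib.MP_565f87_an.Loc
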