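import Pool.Agent.Lib.MP_565f87_an.Loc

/-!
Peeling off R-classes: an injective cellular automaton over a monoid is surjective as soon as it
is surjective on each R-class relative to the values below that class.
-/

set_option autoImplicit false

namespace Pool.Agent.Lib.MP_565f87_an

open Pool.Agent.Lib.MP_565f87_an.Loc

universe u v w

variable {M : Type u} [Monoid M] {A : Type v}

/-- The R-class of `m`: the elements generating the same principal right ideal. -/
def RClass (m : M) : Set M := {n | (∃ s, n = m * s) ∧ ∃ t, m = n * t}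

theorem mem_RClass_self (m : M) : m ∈ RClass m := ⟨⟨1, by simp⟩, ⟨1, by simp⟩⟩

theorem mem_RClass_of_mul {m n t s : M} (hn : n ∈ RClass m) (h : n * t * s ∈ RClass m) :
    n * t ∈ RClass m := by
  obtain ⟨⟨a, rfl⟩, -⟩ := hn
  obtain ⟨-, b, hb⟩ := h
  exact ⟨⟨a * t, by simp [mul_assoc]⟩, ⟨s * b, by rw [← mul_assoc]; exact hb⟩⟩

/-- Relative injectivity on an R-class. -/
theorem rel_inj {τ : (M → A) → (M → A)} (hτ : IsCA τ) (hinj : Function.Injective τ) (m : M)
    (x x' : M → A) (hoff : ∀ n, n ∉ RClass m → x n = x' n)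
    (hon : ∀ n ∈ RClass m, τ x n = τ x' n) : ∀ n ∈ RClass m, x n = x' n := by
  obtain ⟨S, μ, hμ⟩ := hτ
  intro n hn
  have h : τ (fun k => x (n * k)) = τ (fun k => x' (n * k)) := by
    funext t
    by_cases ht : n * t ∈ RClass m
    · have := hon _ ht
      rw [hμ, hμ] at this
      rw [hμ, hμ]
      simpa only [mul_assoc] using this
    · rw [hμ, hμ]
      congr 1
      funext s
      rw [← mul_assoc]
      exact hoff _ fun h => ht (mem_RClass_of_mul hn h)
  simpa using congrFun (hinj h) 1

theorem surj_of_finite_patterns [Finite A] {τ : (M → A) → (M → A)} (hτ : IsCA τ)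
    (h : ∀ (y : M → A) (F : Finset M), ∃ x, ∀ n ∈ F, τ x n = y n) : Function.Surjective τ := by
  classical
  obtain ⟨S, μ, hμ⟩ := hτ
  let _ : TopologicalSpace A := ⊥
  have : DiscreteTopology A := ⟨rfl⟩
  have hcont : ∀ m : M, Continuous (fun x : M → A => τ x m) := by
    intro m
    have : (fun x : M → A => τ x m) = fun x => μ (fun s => x (m * s.1)) := by
      funext x; exact hμ x m
    rw [this]
    have h1 : Continuous μ := continuous_of_discreteTopology
    exact h1.comp (continuous_pi fun s => continuous_apply _)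
  intro y
  by_contra hne
  let U : M → Set (M → A) := fun t => {x | τ x t ≠ y t}
  have hU : ∀ t, IsOpen (U t) := fun t =>
    (isOpen_discrete {a : A | a ≠ y t}).preimage (hcont t)
  have hcov : (Set.univ : Set (M → A)) ⊆ ⋃ t, U t := by
    intro x _
    by_contra hx
    simp only [Set.mem_iUnion, not_exists] at hx
    exact hne ⟨x, funext fun t => by_contra fun h => hx t h⟩
  obtain ⟨T, hT⟩ := isCompact_univ.elim_finite_subcover U hU hcov
  obtain ⟨x, hx⟩ := h y T
  have := hT (Set.mem_univ x)
  simp only [Set.mem_iUnion] at this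
  obtain ⟨t, ht, h⟩ := this
  exact h (hx t ht)

/-- Peeling lemma. -/
theorem peel [Finite A] [Nonempty A] {τ : (M → A) → (M → A)} (hτ : IsCA τ)
    (h : ∀ (m : M) (z y : M → A), ∃ x : M → A, (∀ n, n ∉ RClass m → x n = z n) ∧
      ∀ n ∈ RClass m, τ x n = y n) : Function.Surjective τ := by
  classical
  refine surj_of_finite_patterns hτ fun y F => ?_
  obtain ⟨S, μ, hμ⟩ := hτ
  induction F using Finset.strongInduction with
  | H F ih =>
    rcases F.eq_empty_or_nonempty with rfl | hF
    · exact ⟨fun _ => Classical.arbitrary A, by simp⟩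
    obtain ⟨m, hm, hmax⟩ := Set.Finite.exists_maximalFor (fun m : M => {k : M | ∃ s, k = m * s})
      (F : Set M) F.finite_toSet (by exact_mod_cast hF)
    obtain ⟨z, hz⟩ := ih (F.filter fun n => n ∉ RClass m)
      (Finset.filter_ssubset.2 ⟨m, hm, not_not.2 (mem_RClass_self m)⟩)
    obtain ⟨x, hx1, hx2⟩ := h m z y
    refine ⟨x, fun n hn => ?_⟩
    by_cases hnm : n ∈ RClass m
    · exact hx2 n hnm
    · rw [← hz n (Finset.mem_filter.2 ⟨hn, hnm⟩), hμ, hμ]
      congr 1
      funext s
      refine hx1 _ fun hs => hnm ?_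
      obtain ⟨-, b, hb⟩ := hs
      have hle : {k : M | ∃ s, k = m * s} ≤ {k : M | ∃ s, k = n * s} := by
        rintro k ⟨c, rfl⟩
        exact ⟨s.1 * b * c, by rw [← mul_assoc, ← mul_assoc, ← hb]⟩
      exact ⟨hmax hn hle ⟨1, by simp⟩, ⟨s.1 * b, by rw [← mul_assoc]; exact hb⟩⟩

/-- Monoids with finite R-classes are surjunctive. -/
theorem surjunctive_of_finite_RClass (h : ∀ m : M, (RClass m).Finite) :
    Surjunctive.{u, v} M := by
  classical
  intro A _ _ τ hτ hinj
  refine peel hτ fun m z y => ?_
  have : Finite (RClass m) := (h m).to_subtype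
  let glue : (RClass m → A) → (M → A) := fun w n => if hn : n ∈ RClass m then w ⟨n, hn⟩ else z n
  let φ : (RClass m → A) → (RClass m → A) := fun w n => τ (glue w) n.1
  have hφ : Function.Injective φ := by
    intro w w' hw
    funext n
    have := rel_inj hτ hinj m (glue w) (glue w') (fun k hk => by simp only [glue, dif_neg hk])
      (fun k hk => congrFun hw ⟨k, hk⟩) n.1 n.2
    simpa only [glue, dif_pos n.2] using this
  obtain ⟨w, hw⟩ := Finite.surjective_of_injective hφ fun n => y n.1
  exact ⟨glue w, fun k hk => by simp only [glue, dif_neg hk], fun k hk => congrFun hw ⟨k, hk⟩⟩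

/-- The universe of the alphabet does not matter. -/
theorem Surjunctive.any (h : Surjunctive.{u, v} M) (B : Type w) [Finite B] [Nonempty B]
    (τ : (M → B) → (M → B)) (hτ : IsCA τ) (hinj : Function.Injective τ) :
    Function.Surjective τ := by
  obtain ⟨n, ⟨e0⟩⟩ := Finite.exists_equiv_fin B
  let e : B ≃ ULift.{v} (Fin n) := e0.trans Equiv.ulift.symm
  have : Nonempty (ULift.{v} (Fin n)) := ⟨e (Classical.arbitrary B)⟩
  obtain ⟨S, μ, hμ⟩ := hτ
  have hs := h (ULift.{v} (Fin n)) (fun x m => e (τ (fun k => e.symm (x k)) m))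
    ⟨S, fun w => e (μ fun s => e.symm (w s)), fun x m => by simp only [hμ]⟩ (by
      intro x x' hx
      have h1 : τ (fun k => e.symm (x k)) = τ (fun k => e.symm (x' k)) :=
        funext fun m => e.injective (congrFun hx m)
      exact funext fun m => e.symm.injective (congrFun (hinj h1) m))
  intro y
  obtain ⟨x, hx⟩ := hs fun m => e (y m)
  exact ⟨fun k => e.symm (x k), funext fun m => e.injective (congrFun hx m)⟩

/-- Surjunctivity passes to the group of units. -/
theorem Surjunctive.units (h : Surjunctive.{u, v} M) : Surjunctive.{u, v} Mˣ := by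
  classical
  intro A _ _ τ hτ hinj
  obtain ⟨S, μ, hμ⟩ := hτ
  let σ : (M → A) → (M → A) := fun x m => μ fun s => x (m * s.1)
  have hσ : ∀ (x : M → A) (m : M) (g : Mˣ), σ x (m * g) = τ (fun k => x (m * k)) g := by
    intro x m g
    rw [hμ]
    simp only [σ, Units.val_mul, mul_assoc]
  have hs := h A σ ⟨S.image fun s : Mˣ => (s : M), fun w =>
      μ (fun s => w ⟨(s.1 : M), Finset.mem_image.2 ⟨s.1, s.2, rfl⟩⟩), fun x m => rfl⟩ (by
    intro x x' hx
    funext m
    have h1 : τ (fun k => x (m * k)) = τ (fun k => x' (m * k)) := by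
      funext g
      rw [← hσ, ← hσ, hx]
    simpa using congrFun (hinj h1) 1)
  intro y
  obtain ⟨x, hx⟩ := hs fun m => if hm : IsUnit m then y hm.unit else Classical.arbitrary A
  refine ⟨fun k => x k, funext fun g => ?_⟩
  have h1 := hσ x 1 g
  simp only [one_mul] at h1
  rw [← h1, hx]
  simp

end Pool.Agent.Lib.MP_565f87_an
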